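import Mathlib

/-!
P-groupoids, P-quasigroups and Eulerian P-quasigroups (Kotzig), and the difference method:
a cyclic half-set sequence of `ZMod (2h+1)` whose neighbour sums form a half-set and whose total sum
is a unit gives an Eulerian P-quasigroup of order `2h+1`.
-/

namespace H401PQ

/-- A P-groupoid: an idempotent operation with `a b ≠ a, b` for `a ≠ b` and `a b = c ↔ c b = a`. -/
structure IsPGroupoid {V : Type*} (op : V → V → V) : Prop where
  idem : ∀ a, op a a = a
  ne_left : ∀ a b, a ≠ b → op a b ≠ a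
  ne_right : ∀ a b, a ≠ b → op a b ≠ b
  symm : ∀ a b c, op a b = c ↔ op c b = a

/-- A quasigroup: both equations `a x = b` and `y a = b` have exactly one solution. -/
def IsQuasigroup {V : Type*} (op : V → V → V) : Prop :=
  ∀ a b, (∃! x, op a x = b) ∧ (∃! y, op y a = b)

/-- There is a cyclic sequence `v` of length `m` with `v_i v_{i+1} = v_{i+2}` such that every edge
`{a, b}` of the complete graph is `{v_i, v_{i+1}}` for exactly one `i`. -/
def IsEulerianOfLength {V : Type*} (m : ℕ) (op : V → V → V) : Prop :=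
  ∃ v : ZMod m → V, (∀ i, op (v i) (v (i + 1)) = v (i + 2)) ∧
    ∀ a b : V, a ≠ b →
      ∃! i, (v i = a ∧ v (i + 1) = b) ∨ (v i = b ∧ v (i + 1) = a)

/-- The closed walks of the P-groupoid form one closed walk through all `n(n-1)/2` edges. -/
def IsEulerian {V : Type*} [Fintype V] (op : V → V → V) : Prop :=
  IsEulerianOfLength (Fintype.card V * (Fintype.card V - 1) / 2) op

/-- `F` is a half-set: every nonzero residue is `± F i` for exactly one `i` and one sign. -/
def HS {n : ℕ} {ι : Type*} (F : ι → ZMod n) : Prop :=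
  (∀ i, F i ≠ - F i) ∧ ∀ x, x ≠ 0 → ∃! i, x = F i ∨ x = - F i

section Construct

variable {h : ℕ} {n : ℕ} (D : ZMod h → ZMod n)

/-- `a, b, c` are consecutive on the walk with difference sequence `D`. -/
def R (a b c : ZMod n) : Prop :=
  ∃ i, (b = a + D i ∧ c = b + D (i + 1)) ∨ (b = c + D i ∧ a = b + D (i + 1))

lemma HS.ne_zero {n : ℕ} {ι : Type*} {F : ι → ZMod n} (H : HS F) (i : ι) : F i ≠ 0 := by
  intro h0
  exact H.1 i (by rw [h0]; simp)

lemma HS.uniq {n : ℕ} {ι : Type*} {F : ι → ZMod n} (H : HS F) {x : ZMod n} {i j : ι}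
    (hi : x = F i ∨ x = - F i) (hj : x = F j ∨ x = - F j) : i = j := by
  have hx : x ≠ 0 := by
    intro h0
    rcases hi with hi | hi
    · exact H.ne_zero i (by rw [← hi, h0])
    · exact H.ne_zero i (by rw [h0] at hi; exact neg_eq_zero.mp hi.symm)
  exact (H.2 x hx).unique hi hj

lemma R_symm {a b c : ZMod n} (hR : R D a b c) : R D c b a := by
  obtain ⟨i, hi⟩ := hR
  exact ⟨i, hi.symm⟩

variable {D}

lemma R_left (H1 : HS D) {a b c : ZMod n} (hR : R D a b c) : a ≠ b := by
  obtain ⟨i, ⟨h1, -⟩ | ⟨-, h2⟩⟩ := hR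
  · rintro rfl
    exact H1.ne_zero i (by simpa using h1)
  · rintro rfl
    exact H1.ne_zero (i + 1) (by simpa using h2)

lemma R_ne (H2 : HS (fun i => D i + D (i + 1))) {a b c : ZMod n} (hR : R D a b c) : a ≠ c := by
  obtain ⟨i, ⟨h1, h2⟩ | ⟨h1, h2⟩⟩ := hR
  · rintro rfl
    apply H2.ne_zero i
    rw [h1] at h2
    have : a + (D i + D (i + 1)) = a + 0 := by rw [← add_assoc, ← h2, add_zero]
    exact add_left_cancel this
  · rintro rfl
    apply H2.ne_zero i
    rw [h1] at h2
    have : a + (D i + D (i + 1)) = a + 0 := by rw [← add_assoc, ← h2, add_zero]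
    exact add_left_cancel this

lemma R_exists (H1 : HS D) {a b : ZMod n} (hab : a ≠ b) : ∃! c, R D a b c := by
  have hx : b - a ≠ 0 := sub_ne_zero.mpr hab.symm
  obtain ⟨i, hi, -⟩ := H1.2 (b - a) hx
  rcases hi with hi | hi
  · refine ⟨b + D (i + 1), ⟨i, Or.inl ⟨by rw [← hi]; ring, rfl⟩⟩, ?_⟩
    rintro c ⟨j, ⟨h1, h2⟩ | ⟨h1, h2⟩⟩
    · have hj : b - a = D j := by rw [h1]; ring
      have : i = j := H1.uniq (Or.inl hi) (Or.inl hj)
      rw [h2, this]
    · exfalso
      have hj : b - a = - D (j + 1) := by rw [h2]; ring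
      have : i = j + 1 := H1.uniq (Or.inl hi) (Or.inr hj)
      exact H1.1 i (by rw [this]; rw [this] at hi; exact hi.symm.trans hj)
  · refine ⟨b - D (i - 1), ⟨i - 1, Or.inr ⟨by ring, ?_⟩⟩, ?_⟩
    · rw [sub_add_cancel]
      have : D i = -(b - a) := by rw [hi]; ring
      rw [this]; ring
    rintro c ⟨j, ⟨h1, h2⟩ | ⟨h1, h2⟩⟩
    · exfalso
      have hj : b - a = D j := by rw [h1]; ring
      have : i = j := H1.uniq (Or.inr hi) (Or.inl hj)
      apply H1.1 i
      rw [← hi, hj, this]
    · have hj : b - a = - D (j + 1) := by rw [h2]; ring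
      have : i = j + 1 := H1.uniq (Or.inr hi) (Or.inr hj)
      have h3 : i - 1 = j := by rw [this]; ring
      rw [h3]
      have : b - D j = c := by rw [h1]; ring
      exact this.symm

lemma R_mid (H2 : HS (fun i => D i + D (i + 1))) {a b : ZMod n}
    (hab : a ≠ b) : ∃! x, R D a x b := by
  have hx : b - a ≠ 0 := sub_ne_zero.mpr hab.symm
  obtain ⟨i, hi, -⟩ := H2.2 (b - a) hx
  rcases hi with hi | hi
  · refine ⟨a + D i, ⟨i, Or.inl ⟨rfl, ?_⟩⟩, ?_⟩
    · have : b = a + (b - a) := by ring
      rw [this, hi]; ring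
    rintro x ⟨j, ⟨h1, h2⟩ | ⟨h1, h2⟩⟩
    · have hj : b - a = (fun i => D i + D (i + 1)) j := by simp only; rw [h2, h1]; ring
      have : i = j := H2.uniq (Or.inl hi) (Or.inl hj)
      rw [h1, this]
    · exfalso
      have hj : b - a = - (fun i => D i + D (i + 1)) j := by simp only; rw [h2, h1]; ring
      have : i = j := H2.uniq (Or.inl hi) (Or.inr hj)
      exact H2.1 i (by rw [this]; rw [this] at hi; exact hi.symm.trans hj)
  · refine ⟨b + D i, ⟨i, Or.inr ⟨rfl, ?_⟩⟩, ?_⟩
    · have : a = b - (b - a) := by ring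
      rw [this, hi]; ring
    rintro x ⟨j, ⟨h1, h2⟩ | ⟨h1, h2⟩⟩
    · exfalso
      have hj : b - a = (fun i => D i + D (i + 1)) j := by simp only; rw [h2, h1]; ring
      have : i = j := H2.uniq (Or.inr hi) (Or.inl hj)
      apply H2.1 i
      rw [← hi, hj, this]
    · have hj : b - a = - (fun i => D i + D (i + 1)) j := by simp only; rw [h2, h1]; ring
      have : i = j := H2.uniq (Or.inr hi) (Or.inr hj)
      rw [h1, this]

open Classical in
/-- the operation defined by the walk -/
noncomputable def opOf (H1 : HS D) (a b : ZMod n) : ZMod n :=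
  if hab : a = b then a else (R_exists H1 hab).choose

lemma opOf_spec (H1 : HS D) {a b : ZMod n} (hab : a ≠ b) : R D a b (opOf H1 a b) := by
  unfold opOf
  rw [dif_neg hab]
  exact (R_exists H1 hab).choose_spec.1

lemma opOf_eq (H1 : HS D) {a b c : ZMod n} (hR : R D a b c) : opOf H1 a b = c :=
  (R_exists H1 (R_left H1 hR)).unique (opOf_spec H1 (R_left H1 hR)) hR

lemma opOf_self (H1 : HS D) (a : ZMod n) : opOf H1 a a = a := by
  unfold opOf
  rw [dif_pos rfl]

lemma opOf_pgroupoid (H1 : HS D) (H2 : HS (fun i => D i + D (i + 1))) :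
    IsPGroupoid (opOf H1) := by
  have key : ∀ a b c, opOf H1 a b = c → opOf H1 c b = a := by
    intro a b c hc
    by_cases hab : a = b
    · subst hab
      rw [opOf_self] at hc
      subst hc
      exact opOf_self H1 a
    · have := opOf_spec H1 hab
      rw [hc] at this
      exact opOf_eq H1 (R_symm D this)
  refine ⟨opOf_self H1, ?_, ?_, fun a b c => ⟨key a b c, key c b a⟩⟩
  · intro a b hab h0
    have := opOf_spec H1 hab
    exact R_ne H2 this h0.symm
  · intro a b hab h0
    have := R_symm D (opOf_spec H1 hab)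
    exact R_left H1 this h0

lemma opOf_quasigroup (H1 : HS D) (H2 : HS (fun i => D i + D (i + 1))) :
    IsQuasigroup (opOf H1) := by
  intro a b
  have hP := opOf_pgroupoid H1 H2
  constructor
  · by_cases hab : a = b
    · subst hab
      refine ⟨a, opOf_self H1 a, ?_⟩
      intro x hx
      by_contra hne
      exact hP.ne_left a x (fun h => hne h.symm) hx
    · obtain ⟨x, hx, hu⟩ := R_mid H2 hab
      refine ⟨x, opOf_eq H1 hx, ?_⟩
      intro y hy
      apply hu
      have hay : a ≠ y := by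
        rintro rfl
        rw [opOf_self] at hy
        exact hab hy
      have := opOf_spec H1 hay
      rwa [hy] at this
  · refine ⟨opOf H1 b a, (hP.symm b a _).mp rfl, ?_⟩
    intro y hy
    exact ((hP.symm y a b).mp hy).symm

end Construct

section Walk

variable {h : ℕ} {n : ℕ}

lemma sum_range_zmod [NeZero h] (f : ZMod h → ZMod n) :
    ∑ j ∈ Finset.range h, f (j : ZMod h) = ∑ i : ZMod h, f i := by
  refine Finset.sum_nbij' (fun j => (j : ZMod h)) (fun i => i.val) ?_ ?_ ?_ ?_ ?_
  · intro j _; exact Finset.mem_univ _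
  · intro i _; exact Finset.mem_range.mpr (ZMod.val_lt i)
  · intro j hj
    exact ZMod.val_cast_of_lt (Finset.mem_range.mp hj)
  · intro i _
    exact ZMod.natCast_zmod_val i
  · intro j _; rfl

/-- partial sums of the periodic sequence -/
def P (D : ZMod h → ZMod n) (k : ℕ) : ZMod n := ∑ j ∈ Finset.range k, D (j : ZMod h)

lemma P_zero (D : ZMod h → ZMod n) : P D 0 = 0 := by simp [P]

lemma P_succ (D : ZMod h → ZMod n) (k : ℕ) : P D (k + 1) = P D k + D (k : ZMod h) := by
  unfold P
  rw [Finset.sum_range_succ]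

lemma P_add [NeZero h] (D : ZMod h → ZMod n) (k : ℕ) :
    P D (k + h) = P D k + ∑ i : ZMod h, D i := by
  unfold P
  rw [Finset.sum_range_add (fun j : ℕ => D (j : ZMod h)) k h]
  congr 1
  have : ∑ x ∈ Finset.range h, D ((k + x : ℕ) : ZMod h)
      = ∑ x ∈ Finset.range h, (fun i : ZMod h => D ((k : ZMod h) + i)) (x : ZMod h) := by
    apply Finset.sum_congr rfl
    intro x _
    push_cast
    rfl
  rw [this, sum_range_zmod (fun i : ZMod h => D ((k : ZMod h) + i))]
  exact Fintype.sum_equiv (Equiv.addLeft (k : ZMod h)) _ _ (fun _ => rfl)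

lemma P_add_mul [NeZero h] (D : ZMod h → ZMod n) (k q : ℕ) :
    P D (k + h * q) = P D k + (q : ZMod n) * ∑ i : ZMod h, D i := by
  induction q with
  | zero => simp
  | succ q ih =>
    have : k + h * (q + 1) = (k + h * q) + h := by ring
    rw [this, P_add, ih]
    push_cast
    ring

lemma P_mod [NeZero h] (D : ZMod h → ZMod n) (k : ℕ) :
    P D (k % (h * n)) = P D k := by
  conv_rhs => rw [← Nat.mod_add_div k (h * n)]
  rw [mul_assoc, P_add_mul]
  simp

end Walk

section Euler

variable {h n : ℕ} [NeZero h] [NeZero n] (D : ZMod h → ZMod n)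

/-- the closed walk -/
def walk (k : ZMod (h * n)) : ZMod n := P D k.val

lemma walk_succ (hm : 1 < h * n) (k : ZMod (h * n)) :
    walk D (k + 1) = walk D k + D (k.val : ZMod h) := by
  have : NeZero (h * n) := ⟨by omega⟩
  have : Fact (1 < h * n) := ⟨hm⟩
  unfold walk
  rw [ZMod.val_add, ZMod.val_one, P_mod, P_succ]

lemma cast_succ (hm : 1 < h * n) (k : ZMod (h * n)) :
    (((k + 1 : ZMod (h * n)).val : ℕ) : ZMod h) = (k.val : ZMod h) + 1 := by
  have : NeZero (h * n) := ⟨by omega⟩
  have : Fact (1 < h * n) := ⟨hm⟩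
  rw [ZMod.val_add, ZMod.val_one]
  have h1 : h ∣ h * n := Dvd.intro _ rfl
  have h2 : ((((k.val + 1) % (h * n) : ℕ)) : ZMod h) = ((k.val + 1 : ℕ) : ZMod h) := by
    rw [ZMod.natCast_eq_natCast_iff]
    exact (Nat.mod_modEq _ _).of_dvd h1
  rw [h2]
  push_cast
  rfl

variable {D}

lemma edge_unique (hm : 1 < h * n) (H1 : HS D)
    (H3 : IsUnit (∑ i : ZMod h, D i)) {a b : ZMod n} {i : ZMod h} (hi : b - a = D i) :
    ∃! k : ZMod (h * n), (walk D k = a ∧ walk D (k + 1) = b) ∨
      (walk D k = b ∧ walk D (k + 1) = a) := by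
  have : NeZero (h * n) := ⟨by omega⟩
  obtain ⟨u, hu⟩ := H3
  set S := ∑ i : ZMod h, D i with hS
  set j : ZMod n := (a - P D i.val) * (↑(u⁻¹) : ZMod n) with hj
  have hjS : j * S = a - P D i.val := by
    rw [hj, ← hu, mul_assoc, Units.inv_mul, mul_one]
  have hk0 : i.val + h * j.val < h * n := by
    have h1 := ZMod.val_lt i
    have h2 := ZMod.val_lt j
    calc i.val + h * j.val < h + h * j.val := by omega
      _ = h * (j.val + 1) := by ring
      _ ≤ h * n := Nat.mul_le_mul_left _ h2
  have hval : (((i.val + h * j.val : ℕ)) : ZMod (h * n)).val = i.val + h * j.val :=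
    ZMod.val_cast_of_lt hk0
  have hcast : ((i.val + h * j.val : ℕ) : ZMod h) = i := by
    push_cast
    simp
  refine ⟨((i.val + h * j.val : ℕ) : ZMod (h * n)), ?_, ?_⟩
  · left
    have hw : walk D ((i.val + h * j.val : ℕ) : ZMod (h * n)) = a := by
      unfold walk
      rw [hval, P_add_mul, ← hS, ZMod.natCast_zmod_val, hjS]
      ring
    refine ⟨hw, ?_⟩
    rw [walk_succ D hm, hw, hval, hcast, ← hi]
    ring
  · rintro k (⟨h1, h2⟩ | ⟨h1, h2⟩)
    · rw [walk_succ D hm, h1] at h2
      have h3 : b - a = D (k.val : ZMod h) := by rw [← h2]; ring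
      have h4 : i = (k.val : ZMod h) := H1.uniq (Or.inl hi) (Or.inl h3)
      have h5 : i.val = k.val % h := by rw [h4, ZMod.val_natCast]
      have h6 : k.val = i.val + h * (k.val / h) := by
        rw [h5]; exact (Nat.mod_add_div _ _).symm
      unfold walk at h1
      rw [h6, P_add_mul, ← hS] at h1
      have h7 : ((k.val / h : ℕ) : ZMod n) * S = j * S := by
        rw [hjS, ← h1]; ring
      have h8 : ((k.val / h : ℕ) : ZMod n) = j := by
        rw [← hu] at h7
        exact (Units.mul_left_inj u).mp h7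
      have h9 : k.val / h < n := by
        apply Nat.div_lt_of_lt_mul
        exact ZMod.val_lt k
      have h10 : k.val / h = j.val := by
        rw [← h8, ZMod.val_cast_of_lt h9]
      apply ZMod.val_injective
      rw [hval, ← h10]
      exact h6
    · exfalso
      rw [walk_succ D hm, h1] at h2
      have h3 : b - a = - D (k.val : ZMod h) := by rw [← h2]; ring
      have h4 : i = (k.val : ZMod h) := H1.uniq (Or.inl hi) (Or.inr h3)
      apply H1.1 i
      conv_rhs => rw [h4, ← h3]
      exact hi.symm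

theorem eulerian_of_seq (hm : 1 < h * n) (H1 : HS D)
    (H3 : IsUnit (∑ i : ZMod h, D i)) :
    IsEulerianOfLength (h * n) (opOf H1) := by
  refine ⟨walk D, ?_, ?_⟩
  · intro k
    apply opOf_eq
    refine ⟨(k.val : ZMod h), Or.inl ⟨walk_succ D hm k, ?_⟩⟩
    have : k + 2 = (k + 1) + 1 := by ring
    rw [this, walk_succ D hm (k + 1), cast_succ hm]
  · intro a b hab
    have hx : b - a ≠ 0 := sub_ne_zero.mpr hab.symm
    obtain ⟨i, hi, -⟩ := H1.2 (b - a) hx
    rcases hi with hi | hi
    · exact edge_unique hm H1 H3 hi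
    · have hi' : a - b = D i := by
        have : a - b = -(b - a) := by ring
        rw [this, hi]; ring
      obtain ⟨k, hk, hu⟩ := edge_unique hm H1 H3 hi'
      exact ⟨k, hk.symm, fun y hy => hu y hy.symm⟩

end Euler

/-- existence of an Eulerian P-quasigroup of order `n` -/
def ExistsEPQ (n : ℕ) : Prop :=
  ∃ (V : Type) (_ : Fintype V) (op : V → V → V),
    Fintype.card V = n ∧ IsPGroupoid op ∧ IsQuasigroup op ∧ IsEulerian op

theorem exists_of_seq {h : ℕ} [NeZero h] (D : ZMod h → ZMod (2 * h + 1)) (H1 : HS D)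
    (H2 : HS (fun i => D i + D (i + 1))) (H3 : IsUnit (∑ i : ZMod h, D i)) :
    ExistsEPQ (2 * h + 1) := by
  have hh : 1 ≤ h := Nat.one_le_iff_ne_zero.mpr (NeZero.ne h)
  refine ⟨ZMod (2 * h + 1), inferInstance, opOf H1, ZMod.card _, opOf_pgroupoid H1 H2,
    opOf_quasigroup H1 H2, ?_⟩
  unfold IsEulerian
  rw [ZMod.card]
  have : (2 * h + 1) * (2 * h + 1 - 1) / 2 = h * (2 * h + 1) := by
    have : (2 * h + 1) * (2 * h + 1 - 1) = (h * (2 * h + 1)) * 2 := by
      rw [Nat.add_sub_cancel]; ring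
    rw [this, Nat.mul_div_cancel _ (by norm_num)]
  rw [this]
  exact eulerian_of_seq (by nlinarith) H1 H3

end H401PQ
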