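import Pool.Agent.H401R3.PQ.Half

/-! The five families of difference sequences. -/

namespace H401PQ

set_option maxHeartbeats 4000000

/-! ### family 0: h = 4 * k + 8 -/

/-- difference sequence for `h = 4 * k + 8` -/
def d0 (k i : ℕ) : ℤ :=
  if i < 1 * k + 1 then (0 * (k : ℤ) + 1) + ((i : ℤ) - (0 * (k : ℤ) + 0))
  else if i < 2 * k + 4 then (3 * (k : ℤ) + 6) + ((i : ℤ) - (1 * (k : ℤ) + 1))
  else if i < 3 * k + 5 then (2 * (k : ℤ) + 3) - ((i : ℤ) - (2 * (k : ℤ) + 4))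
  else if i < 3 * k + 6 then (-1 * (k : ℤ) - 2)
  else (3 * (k : ℤ) + 5) - ((i : ℤ) - (3 * (k : ℤ) + 6))

lemma d0_spec (k i : ℕ) : (i < 1 * k + 1 ∧ d0 k i = (0 * (k : ℤ) + 1) + ((i : ℤ) - (0 * (k : ℤ) + 0))) ∨
    (1 * k + 1 ≤ i ∧ i < 2 * k + 4 ∧ d0 k i = (3 * (k : ℤ) + 6) + ((i : ℤ) - (1 * (k : ℤ) + 1))) ∨
    (2 * k + 4 ≤ i ∧ i < 3 * k + 5 ∧ d0 k i = (2 * (k : ℤ) + 3) - ((i : ℤ) - (2 * (k : ℤ) + 4))) ∨
    (3 * k + 5 ≤ i ∧ i < 3 * k + 6 ∧ d0 k i = (-1 * (k : ℤ) - 2)) ∨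
    (3 * k + 6 ≤ i ∧ d0 k i = (3 * (k : ℤ) + 5) - ((i : ℤ) - (3 * (k : ℤ) + 6))) := by
  unfold d0
  split_ifs <;> omega

/-- absolute neighbour sums for `h = 4 * k + 8` -/
def t0 (k i : ℕ) : ℤ :=
  if i < 1 * k + 0 then 2 * (i : ℤ) + (0 * (k : ℤ) + 3)
  else if i < 1 * k + 1 then (4 * (k : ℤ) + 7)
  else if i < 2 * k + 3 then -2 * (i : ℤ) + (4 * (k : ℤ) + 6)
  else if i < 2 * k + 4 then (2 * (k : ℤ) + 6)
  else if i < 3 * k + 4 then -2 * (i : ℤ) + (8 * (k : ℤ) + 13)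
  else if i < 3 * k + 5 then (0 * (k : ℤ) + 1)
  else if i < 3 * k + 6 then (2 * (k : ℤ) + 3)
  else if i < 4 * k + 7 then 2 * (i : ℤ) + (-4 * (k : ℤ) - 4)
  else (2 * (k : ℤ) + 5)

lemma t0_spec (k i : ℕ) : (i < 1 * k + 0 ∧ t0 k i = 2 * (i : ℤ) + (0 * (k : ℤ) + 3)) ∨
    (1 * k + 0 ≤ i ∧ i < 1 * k + 1 ∧ t0 k i = (4 * (k : ℤ) + 7)) ∨
    (1 * k + 1 ≤ i ∧ i < 2 * k + 3 ∧ t0 k i = -2 * (i : ℤ) + (4 * (k : ℤ) + 6)) ∨
    (2 * k + 3 ≤ i ∧ i < 2 * k + 4 ∧ t0 k i = (2 * (k : ℤ) + 6)) ∨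
    (2 * k + 4 ≤ i ∧ i < 3 * k + 4 ∧ t0 k i = -2 * (i : ℤ) + (8 * (k : ℤ) + 13)) ∨
    (3 * k + 4 ≤ i ∧ i < 3 * k + 5 ∧ t0 k i = (0 * (k : ℤ) + 1)) ∨
    (3 * k + 5 ≤ i ∧ i < 3 * k + 6 ∧ t0 k i = (2 * (k : ℤ) + 3)) ∨
    (3 * k + 6 ≤ i ∧ i < 4 * k + 7 ∧ t0 k i = 2 * (i : ℤ) + (-4 * (k : ℤ) - 4)) ∨
    (4 * k + 7 ≤ i ∧ t0 k i = (2 * (k : ℤ) + 5)) := by
  unfold t0
  split_ifs <;> omega

lemma d0_sum (k : ℕ) : ∑ i ∈ Finset.range (4 * k + 8), d0 k i = 8 * ((k : ℤ) + 2) ^ 2 := by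
  have hr : 4 * k + 8 = (1 * k + 1) + ((1 * k + 3) + ((1 * k + 1) + ((0 * k + 1) + (1 * k + 2)))) := by ring
  rw [hr,
    Finset.sum_range_add (fun x => d0 k x) (1 * k + 1),
    Finset.sum_range_add (fun x => d0 k (1 * k + 1 + x)) (1 * k + 3),
    Finset.sum_range_add (fun x => d0 k (1 * k + 1 + (1 * k + 3 + x))) (1 * k + 1),
    Finset.sum_range_add (fun x => d0 k (1 * k + 1 + (1 * k + 3 + (1 * k + 1 + x)))) (0 * k + 1)]
  have e0 := sum_lin (1 * k + 1) ((0 * (k : ℤ) + 1)) (1) (fun x => d0 k x) (by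
    intro i hi
    have hs := d0_spec k i
    omega)
  have e1 := sum_lin (1 * k + 3) ((3 * (k : ℤ) + 6)) (1) (fun x => d0 k (1 * k + 1 + x)) (by
    intro i hi
    have hs := d0_spec k (1 * k + 1 + i)
    omega)
  have e2 := sum_lin (1 * k + 1) ((2 * (k : ℤ) + 3)) (-1) (fun x => d0 k (1 * k + 1 + (1 * k + 3 + x))) (by
    intro i hi
    have hs := d0_spec k (1 * k + 1 + (1 * k + 3 + i))
    omega)
  have e3 := sum_lin (0 * k + 1) ((-1 * (k : ℤ) - 2)) (0) (fun x => d0 k (1 * k + 1 + (1 * k + 3 + (1 * k + 1 + x)))) (by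
    intro i hi
    have hs := d0_spec k (1 * k + 1 + (1 * k + 3 + (1 * k + 1 + i)))
    omega)
  have e4 := sum_lin (1 * k + 2) ((3 * (k : ℤ) + 5)) (-1) (fun x => d0 k (1 * k + 1 + (1 * k + 3 + (1 * k + 1 + (0 * k + 1 + x))))) (by
    intro i hi
    have hs := d0_spec k (1 * k + 1 + (1 * k + 3 + (1 * k + 1 + (0 * k + 1 + i))))
    omega)
  simp only [Nat.cast_add, Nat.cast_mul, Nat.cast_one, Nat.cast_ofNat, Nat.cast_zero] at *
  linarith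

theorem epq0 (k : ℕ) : ExistsEPQ (2 * (4 * k + 8) + 1) := by
  refine epq_of_int (by omega) (d0 k) (fun i => ((d0 k i).natAbs : ℤ)) (t0 k) ?_ ?_ ?_ ?_ ?_ ?_ ?_
  · intro i hi
    have h1 := d0_spec k i
    omega
  · intro i hi j hj hij
    have h1 := d0_spec k i
    have h2 := d0_spec k j
    generalize d0 k i = x at *
    generalize d0 k j = y at *
    omega
  · intro i hi
    omega
  · intro i hi
    have h1 := t0_spec k i
    omega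
  · intro i hi j hj hij
    have h1 := t0_spec k i
    have h2 := t0_spec k j
    generalize t0 k i = x at *
    generalize t0 k j = y at *
    omega
  · intro i hi
    have h1 := d0_spec k i
    have h3 := t0_spec k i
    by_cases hc : i + 1 < 4 * k + 8
    · have h2 := d0_spec k (i + 1)
      rw [show nx (4 * k + 8) i = i + 1 from if_pos hc]
      generalize d0 k i = x at *
      generalize d0 k (i + 1) = y at *
      generalize t0 k i = z at *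
      omega
    · have h2 := d0_spec k 0
      rw [show nx (4 * k + 8) i = 0 from if_neg hc]
      generalize d0 k i = x at *
      generalize d0 k 0 = y at *
      generalize t0 k i = z at *
      omega
  · rw [d0_sum]
    refine ⟨8, -(8 * k + 15), ?_⟩
    push_cast
    ring

/-! ### family 1: h = 4 * k + 9 -/

/-- difference sequence for `h = 4 * k + 9` -/
def d1 (k i : ℕ) : ℤ :=
  if i < 1 * k + 1 then (0 * (k : ℤ) + 1) + ((i : ℤ) - (0 * (k : ℤ) + 0))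
  else if i < 2 * k + 3 then (3 * (k : ℤ) + 8) + ((i : ℤ) - (1 * (k : ℤ) + 1))
  else if i < 3 * k + 6 then (-2 * (k : ℤ) - 5) - ((i : ℤ) - (2 * (k : ℤ) + 3))
  else if i < 3 * k + 7 then (1 * (k : ℤ) + 2)
  else (-1 * (k : ℤ) - 3) - ((i : ℤ) - (3 * (k : ℤ) + 7))

lemma d1_spec (k i : ℕ) : (i < 1 * k + 1 ∧ d1 k i = (0 * (k : ℤ) + 1) + ((i : ℤ) - (0 * (k : ℤ) + 0))) ∨
    (1 * k + 1 ≤ i ∧ i < 2 * k + 3 ∧ d1 k i = (3 * (k : ℤ) + 8) + ((i : ℤ) - (1 * (k : ℤ) + 1))) ∨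
    (2 * k + 3 ≤ i ∧ i < 3 * k + 6 ∧ d1 k i = (-2 * (k : ℤ) - 5) - ((i : ℤ) - (2 * (k : ℤ) + 3))) ∨
    (3 * k + 6 ≤ i ∧ i < 3 * k + 7 ∧ d1 k i = (1 * (k : ℤ) + 2)) ∨
    (3 * k + 7 ≤ i ∧ d1 k i = (-1 * (k : ℤ) - 3) - ((i : ℤ) - (3 * (k : ℤ) + 7))) := by
  unfold d1
  split_ifs <;> omega

/-- absolute neighbour sums for `h = 4 * k + 9` -/
def t1 (k i : ℕ) : ℤ :=
  if i < 1 * k + 0 then 2 * (i : ℤ) + (0 * (k : ℤ) + 3)
  else if i < 1 * k + 1 then (4 * (k : ℤ) + 9)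
  else if i < 2 * k + 2 then -2 * (i : ℤ) + (4 * (k : ℤ) + 4)
  else if i < 2 * k + 3 then (2 * (k : ℤ) + 4)
  else if i < 3 * k + 5 then -2 * (i : ℤ) + (8 * (k : ℤ) + 14)
  else if i < 3 * k + 6 then (2 * (k : ℤ) + 5)
  else if i < 3 * k + 7 then (0 * (k : ℤ) + 1)
  else if i < 4 * k + 8 then 2 * (i : ℤ) + (-4 * (k : ℤ) - 7)
  else (2 * (k : ℤ) + 3)

lemma t1_spec (k i : ℕ) : (i < 1 * k + 0 ∧ t1 k i = 2 * (i : ℤ) + (0 * (k : ℤ) + 3)) ∨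
    (1 * k + 0 ≤ i ∧ i < 1 * k + 1 ∧ t1 k i = (4 * (k : ℤ) + 9)) ∨
    (1 * k + 1 ≤ i ∧ i < 2 * k + 2 ∧ t1 k i = -2 * (i : ℤ) + (4 * (k : ℤ) + 4)) ∨
    (2 * k + 2 ≤ i ∧ i < 2 * k + 3 ∧ t1 k i = (2 * (k : ℤ) + 4)) ∨
    (2 * k + 3 ≤ i ∧ i < 3 * k + 5 ∧ t1 k i = -2 * (i : ℤ) + (8 * (k : ℤ) + 14)) ∨
    (3 * k + 5 ≤ i ∧ i < 3 * k + 6 ∧ t1 k i = (2 * (k : ℤ) + 5)) ∨
    (3 * k + 6 ≤ i ∧ i < 3 * k + 7 ∧ t1 k i = (0 * (k : ℤ) + 1)) ∨
    (3 * k + 7 ≤ i ∧ i < 4 * k + 8 ∧ t1 k i = 2 * (i : ℤ) + (-4 * (k : ℤ) - 7)) ∨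
    (4 * k + 8 ≤ i ∧ t1 k i = (2 * (k : ℤ) + 3)) := by
  unfold t1
  split_ifs <;> omega

lemma d1_sum (k : ℕ) : ∑ i ∈ Finset.range (4 * k + 9), d1 k i = -(2 * (k : ℤ) + 5) := by
  have hr : 4 * k + 9 = (1 * k + 1) + ((1 * k + 2) + ((1 * k + 3) + ((0 * k + 1) + (1 * k + 2)))) := by ring
  rw [hr,
    Finset.sum_range_add (fun x => d1 k x) (1 * k + 1),
    Finset.sum_range_add (fun x => d1 k (1 * k + 1 + x)) (1 * k + 2),
    Finset.sum_range_add (fun x => d1 k (1 * k + 1 + (1 * k + 2 + x))) (1 * k + 3),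
    Finset.sum_range_add (fun x => d1 k (1 * k + 1 + (1 * k + 2 + (1 * k + 3 + x)))) (0 * k + 1)]
  have e0 := sum_lin (1 * k + 1) ((0 * (k : ℤ) + 1)) (1) (fun x => d1 k x) (by
    intro i hi
    have hs := d1_spec k i
    omega)
  have e1 := sum_lin (1 * k + 2) ((3 * (k : ℤ) + 8)) (1) (fun x => d1 k (1 * k + 1 + x)) (by
    intro i hi
    have hs := d1_spec k (1 * k + 1 + i)
    omega)
  have e2 := sum_lin (1 * k + 3) ((-2 * (k : ℤ) - 5)) (-1) (fun x => d1 k (1 * k + 1 + (1 * k + 2 + x))) (by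
    intro i hi
    have hs := d1_spec k (1 * k + 1 + (1 * k + 2 + i))
    omega)
  have e3 := sum_lin (0 * k + 1) ((1 * (k : ℤ) + 2)) (0) (fun x => d1 k (1 * k + 1 + (1 * k + 2 + (1 * k + 3 + x)))) (by
    intro i hi
    have hs := d1_spec k (1 * k + 1 + (1 * k + 2 + (1 * k + 3 + i)))
    omega)
  have e4 := sum_lin (1 * k + 2) ((-1 * (k : ℤ) - 3)) (-1) (fun x => d1 k (1 * k + 1 + (1 * k + 2 + (1 * k + 3 + (0 * k + 1 + x))))) (by
    intro i hi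
    have hs := d1_spec k (1 * k + 1 + (1 * k + 2 + (1 * k + 3 + (0 * k + 1 + i))))
    omega)
  simp only [Nat.cast_add, Nat.cast_mul, Nat.cast_one, Nat.cast_ofNat, Nat.cast_zero] at *
  linarith

theorem epq1 (k : ℕ) : ExistsEPQ (2 * (4 * k + 9) + 1) := by
  refine epq_of_int (by omega) (d1 k) (fun i => ((d1 k i).natAbs : ℤ)) (t1 k) ?_ ?_ ?_ ?_ ?_ ?_ ?_
  · intro i hi
    have h1 := d1_spec k i
    omega
  · intro i hi j hj hij
    have h1 := d1_spec k i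
    have h2 := d1_spec k j
    generalize d1 k i = x at *
    generalize d1 k j = y at *
    omega
  · intro i hi
    omega
  · intro i hi
    have h1 := t1_spec k i
    omega
  · intro i hi j hj hij
    have h1 := t1_spec k i
    have h2 := t1_spec k j
    generalize t1 k i = x at *
    generalize t1 k j = y at *
    omega
  · intro i hi
    have h1 := d1_spec k i
    have h3 := t1_spec k i
    by_cases hc : i + 1 < 4 * k + 9
    · have h2 := d1_spec k (i + 1)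
      rw [show nx (4 * k + 9) i = i + 1 from if_pos hc]
      generalize d1 k i = x at *
      generalize d1 k (i + 1) = y at *
      generalize t1 k i = z at *
      omega
    · have h2 := d1_spec k 0
      rw [show nx (4 * k + 9) i = 0 from if_neg hc]
      generalize d1 k i = x at *
      generalize d1 k 0 = y at *
      generalize t1 k i = z at *
      omega
  · rw [d1_sum]
    refine ⟨-4, -1, ?_⟩
    push_cast
    ring

/-! ### family 2: h = 4 * k + 6 -/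

/-- difference sequence for `h = 4 * k + 6` -/
def d2 (k i : ℕ) : ℤ :=
  if i < 1 * k + 1 then (0 * (k : ℤ) + 1) + ((i : ℤ) - (0 * (k : ℤ) + 0))
  else if i < 2 * k + 3 then (3 * (k : ℤ) + 5) - ((i : ℤ) - (1 * (k : ℤ) + 1))
  else if i < 3 * k + 4 then (4 * (k : ℤ) + 6) - ((i : ℤ) - (2 * (k : ℤ) + 3))
  else if i < 4 * k + 5 then (1 * (k : ℤ) + 2) + ((i : ℤ) - (3 * (k : ℤ) + 4))
  else (-2 * (k : ℤ) - 3)

lemma d2_spec (k i : ℕ) : (i < 1 * k + 1 ∧ d2 k i = (0 * (k : ℤ) + 1) + ((i : ℤ) - (0 * (k : ℤ) + 0))) ∨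
    (1 * k + 1 ≤ i ∧ i < 2 * k + 3 ∧ d2 k i = (3 * (k : ℤ) + 5) - ((i : ℤ) - (1 * (k : ℤ) + 1))) ∨
    (2 * k + 3 ≤ i ∧ i < 3 * k + 4 ∧ d2 k i = (4 * (k : ℤ) + 6) - ((i : ℤ) - (2 * (k : ℤ) + 3))) ∨
    (3 * k + 4 ≤ i ∧ i < 4 * k + 5 ∧ d2 k i = (1 * (k : ℤ) + 2) + ((i : ℤ) - (3 * (k : ℤ) + 4))) ∨
    (4 * k + 5 ≤ i ∧ d2 k i = (-2 * (k : ℤ) - 3)) := by
  unfold d2
  split_ifs <;> omega

/-- absolute neighbour sums for `h = 4 * k + 6` -/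
def t2 (k i : ℕ) : ℤ :=
  if i < 1 * k + 0 then 2 * (i : ℤ) + (0 * (k : ℤ) + 3)
  else if i < 1 * k + 1 then (4 * (k : ℤ) + 6)
  else if i < 2 * k + 2 then 2 * (i : ℤ) + (0 * (k : ℤ) + 2)
  else if i < 2 * k + 3 then (2 * (k : ℤ) + 3)
  else if i < 3 * k + 3 then 2 * (i : ℤ) + (-4 * (k : ℤ) - 4)
  else if i < 3 * k + 4 then (4 * (k : ℤ) + 5)
  else if i < 4 * k + 4 then 2 * (i : ℤ) + (-4 * (k : ℤ) - 3)
  else if i < 4 * k + 5 then (0 * (k : ℤ) + 1)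
  else (2 * (k : ℤ) + 2)

lemma t2_spec (k i : ℕ) : (i < 1 * k + 0 ∧ t2 k i = 2 * (i : ℤ) + (0 * (k : ℤ) + 3)) ∨
    (1 * k + 0 ≤ i ∧ i < 1 * k + 1 ∧ t2 k i = (4 * (k : ℤ) + 6)) ∨
    (1 * k + 1 ≤ i ∧ i < 2 * k + 2 ∧ t2 k i = 2 * (i : ℤ) + (0 * (k : ℤ) + 2)) ∨
    (2 * k + 2 ≤ i ∧ i < 2 * k + 3 ∧ t2 k i = (2 * (k : ℤ) + 3)) ∨
    (2 * k + 3 ≤ i ∧ i < 3 * k + 3 ∧ t2 k i = 2 * (i : ℤ) + (-4 * (k : ℤ) - 4)) ∨
    (3 * k + 3 ≤ i ∧ i < 3 * k + 4 ∧ t2 k i = (4 * (k : ℤ) + 5)) ∨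
    (3 * k + 4 ≤ i ∧ i < 4 * k + 4 ∧ t2 k i = 2 * (i : ℤ) + (-4 * (k : ℤ) - 3)) ∨
    (4 * k + 4 ≤ i ∧ i < 4 * k + 5 ∧ t2 k i = (0 * (k : ℤ) + 1)) ∨
    (4 * k + 5 ≤ i ∧ t2 k i = (2 * (k : ℤ) + 2)) := by
  unfold t2
  split_ifs <;> omega

lemma d2_sum (k : ℕ) : ∑ i ∈ Finset.range (4 * k + 6), d2 k i = (4 * (k : ℤ) + 5) * (2 * k + 3) := by
  have hr : 4 * k + 6 = (1 * k + 1) + ((1 * k + 2) + ((1 * k + 1) + ((1 * k + 1) + (0 * k + 1)))) := by ring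
  rw [hr,
    Finset.sum_range_add (fun x => d2 k x) (1 * k + 1),
    Finset.sum_range_add (fun x => d2 k (1 * k + 1 + x)) (1 * k + 2),
    Finset.sum_range_add (fun x => d2 k (1 * k + 1 + (1 * k + 2 + x))) (1 * k + 1),
    Finset.sum_range_add (fun x => d2 k (1 * k + 1 + (1 * k + 2 + (1 * k + 1 + x)))) (1 * k + 1)]
  have e0 := sum_lin (1 * k + 1) ((0 * (k : ℤ) + 1)) (1) (fun x => d2 k x) (by
    intro i hi
    have hs := d2_spec k i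
    omega)
  have e1 := sum_lin (1 * k + 2) ((3 * (k : ℤ) + 5)) (-1) (fun x => d2 k (1 * k + 1 + x)) (by
    intro i hi
    have hs := d2_spec k (1 * k + 1 + i)
    omega)
  have e2 := sum_lin (1 * k + 1) ((4 * (k : ℤ) + 6)) (-1) (fun x => d2 k (1 * k + 1 + (1 * k + 2 + x))) (by
    intro i hi
    have hs := d2_spec k (1 * k + 1 + (1 * k + 2 + i))
    omega)
  have e3 := sum_lin (1 * k + 1) ((1 * (k : ℤ) + 2)) (1) (fun x => d2 k (1 * k + 1 + (1 * k + 2 + (1 * k + 1 + x)))) (by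
    intro i hi
    have hs := d2_spec k (1 * k + 1 + (1 * k + 2 + (1 * k + 1 + i)))
    omega)
  have e4 := sum_lin (0 * k + 1) ((-2 * (k : ℤ) - 3)) (0) (fun x => d2 k (1 * k + 1 + (1 * k + 2 + (1 * k + 1 + (1 * k + 1 + x))))) (by
    intro i hi
    have hs := d2_spec k (1 * k + 1 + (1 * k + 2 + (1 * k + 1 + (1 * k + 1 + i))))
    omega)
  simp only [Nat.cast_add, Nat.cast_mul, Nat.cast_one, Nat.cast_ofNat, Nat.cast_zero] at *
  linarith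

theorem epq2 (k : ℕ) (h3 : ¬ 3 ∣ 2 * (4 * k + 6) + 1) : ExistsEPQ (2 * (4 * k + 6) + 1) := by
  refine epq_of_int (by omega) (d2 k) (fun i => ((d2 k i).natAbs : ℤ)) (t2 k) ?_ ?_ ?_ ?_ ?_ ?_ ?_
  · intro i hi
    have h1 := d2_spec k i
    omega
  · intro i hi j hj hij
    have h1 := d2_spec k i
    have h2 := d2_spec k j
    generalize d2 k i = x at *
    generalize d2 k j = y at *
    omega
  · intro i hi
    omega
  · intro i hi
    have h1 := t2_spec k i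
    omega
  · intro i hi j hj hij
    have h1 := t2_spec k i
    have h2 := t2_spec k j
    generalize t2 k i = x at *
    generalize t2 k j = y at *
    omega
  · intro i hi
    have h1 := d2_spec k i
    have h3 := t2_spec k i
    by_cases hc : i + 1 < 4 * k + 6
    · have h2 := d2_spec k (i + 1)
      rw [show nx (4 * k + 6) i = i + 1 from if_pos hc]
      generalize d2 k i = x at *
      generalize d2 k (i + 1) = y at *
      generalize t2 k i = z at *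
      omega
    · have h2 := d2_spec k 0
      rw [show nx (4 * k + 6) i = 0 from if_neg hc]
      generalize d2 k i = x at *
      generalize d2 k 0 = y at *
      generalize t2 k i = z at *
      omega
  · rw [d2_sum]
    have h4 : IsCoprime (3 : ℤ) ((2 * (4 * k + 6) + 1 : ℕ) : ℤ) := by
      rw [Int.prime_three.coprime_iff_not_dvd]
      exact_mod_cast h3
    obtain ⟨u, v, huv⟩ := h4
    refine ⟨8 * u, v - (8 * k + 9) * u, ?_⟩
    rw [← huv]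
    push_cast
    ring

/-! ### family 3: h = 4 * k + 7 -/

/-- difference sequence for `h = 4 * k + 7` -/
def d3 (k i : ℕ) : ℤ :=
  if i < 1 * k + 1 then (0 * (k : ℤ) + 1) + ((i : ℤ) - (0 * (k : ℤ) + 0))
  else if i < 2 * k + 3 then (-3 * (k : ℤ) - 6) + ((i : ℤ) - (1 * (k : ℤ) + 1))
  else if i < 3 * k + 4 then (4 * (k : ℤ) + 7) - ((i : ℤ) - (2 * (k : ℤ) + 3))
  else if i < 3 * k + 5 then (1 * (k : ℤ) + 2)
  else (-1 * (k : ℤ) - 3) - ((i : ℤ) - (3 * (k : ℤ) + 5))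

lemma d3_spec (k i : ℕ) : (i < 1 * k + 1 ∧ d3 k i = (0 * (k : ℤ) + 1) + ((i : ℤ) - (0 * (k : ℤ) + 0))) ∨
    (1 * k + 1 ≤ i ∧ i < 2 * k + 3 ∧ d3 k i = (-3 * (k : ℤ) - 6) + ((i : ℤ) - (1 * (k : ℤ) + 1))) ∨
    (2 * k + 3 ≤ i ∧ i < 3 * k + 4 ∧ d3 k i = (4 * (k : ℤ) + 7) - ((i : ℤ) - (2 * (k : ℤ) + 3))) ∨
    (3 * k + 4 ≤ i ∧ i < 3 * k + 5 ∧ d3 k i = (1 * (k : ℤ) + 2)) ∨
    (3 * k + 5 ≤ i ∧ d3 k i = (-1 * (k : ℤ) - 3) - ((i : ℤ) - (3 * (k : ℤ) + 5))) := by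
  unfold d3
  split_ifs <;> omega

/-- absolute neighbour sums for `h = 4 * k + 7` -/
def t3 (k i : ℕ) : ℤ :=
  if i < 1 * k + 0 then 2 * (i : ℤ) + (0 * (k : ℤ) + 3)
  else if i < 1 * k + 1 then (2 * (k : ℤ) + 5)
  else if i < 2 * k + 2 then 2 * (i : ℤ) + (0 * (k : ℤ) + 2)
  else if i < 2 * k + 3 then (2 * (k : ℤ) + 2)
  else if i < 3 * k + 3 then 2 * (i : ℤ) + (-4 * (k : ℤ) - 4)
  else if i < 3 * k + 4 then (4 * (k : ℤ) + 6)
  else if i < 3 * k + 5 then (0 * (k : ℤ) + 1)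
  else if i < 4 * k + 6 then 2 * (i : ℤ) + (-4 * (k : ℤ) - 3)
  else (2 * (k : ℤ) + 3)

lemma t3_spec (k i : ℕ) : (i < 1 * k + 0 ∧ t3 k i = 2 * (i : ℤ) + (0 * (k : ℤ) + 3)) ∨
    (1 * k + 0 ≤ i ∧ i < 1 * k + 1 ∧ t3 k i = (2 * (k : ℤ) + 5)) ∨
    (1 * k + 1 ≤ i ∧ i < 2 * k + 2 ∧ t3 k i = 2 * (i : ℤ) + (0 * (k : ℤ) + 2)) ∨
    (2 * k + 2 ≤ i ∧ i < 2 * k + 3 ∧ t3 k i = (2 * (k : ℤ) + 2)) ∨
    (2 * k + 3 ≤ i ∧ i < 3 * k + 3 ∧ t3 k i = 2 * (i : ℤ) + (-4 * (k : ℤ) - 4)) ∨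
    (3 * k + 3 ≤ i ∧ i < 3 * k + 4 ∧ t3 k i = (4 * (k : ℤ) + 6)) ∨
    (3 * k + 4 ≤ i ∧ i < 3 * k + 5 ∧ t3 k i = (0 * (k : ℤ) + 1)) ∨
    (3 * k + 5 ≤ i ∧ i < 4 * k + 6 ∧ t3 k i = 2 * (i : ℤ) + (-4 * (k : ℤ) - 3)) ∨
    (4 * k + 6 ≤ i ∧ t3 k i = (2 * (k : ℤ) + 3)) := by
  unfold t3
  split_ifs <;> omega

lemma d3_sum (k : ℕ) : ∑ i ∈ Finset.range (4 * k + 7), d3 k i = -4 * ((k : ℤ) + 2) := by
  have hr : 4 * k + 7 = (1 * k + 1) + ((1 * k + 2) + ((1 * k + 1) + ((0 * k + 1) + (1 * k + 2)))) := by ring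
  rw [hr,
    Finset.sum_range_add (fun x => d3 k x) (1 * k + 1),
    Finset.sum_range_add (fun x => d3 k (1 * k + 1 + x)) (1 * k + 2),
    Finset.sum_range_add (fun x => d3 k (1 * k + 1 + (1 * k + 2 + x))) (1 * k + 1),
    Finset.sum_range_add (fun x => d3 k (1 * k + 1 + (1 * k + 2 + (1 * k + 1 + x)))) (0 * k + 1)]
  have e0 := sum_lin (1 * k + 1) ((0 * (k : ℤ) + 1)) (1) (fun x => d3 k x) (by
    intro i hi
    have hs := d3_spec k i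
    omega)
  have e1 := sum_lin (1 * k + 2) ((-3 * (k : ℤ) - 6)) (1) (fun x => d3 k (1 * k + 1 + x)) (by
    intro i hi
    have hs := d3_spec k (1 * k + 1 + i)
    omega)
  have e2 := sum_lin (1 * k + 1) ((4 * (k : ℤ) + 7)) (-1) (fun x => d3 k (1 * k + 1 + (1 * k + 2 + x))) (by
    intro i hi
    have hs := d3_spec k (1 * k + 1 + (1 * k + 2 + i))
    omega)
  have e3 := sum_lin (0 * k + 1) ((1 * (k : ℤ) + 2)) (0) (fun x => d3 k (1 * k + 1 + (1 * k + 2 + (1 * k + 1 + x)))) (by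
    intro i hi
    have hs := d3_spec k (1 * k + 1 + (1 * k + 2 + (1 * k + 1 + i)))
    omega)
  have e4 := sum_lin (1 * k + 2) ((-1 * (k : ℤ) - 3)) (-1) (fun x => d3 k (1 * k + 1 + (1 * k + 2 + (1 * k + 1 + (0 * k + 1 + x))))) (by
    intro i hi
    have hs := d3_spec k (1 * k + 1 + (1 * k + 2 + (1 * k + 1 + (0 * k + 1 + i))))
    omega)
  simp only [Nat.cast_add, Nat.cast_mul, Nat.cast_one, Nat.cast_ofNat, Nat.cast_zero] at *
  linarith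

theorem epq3 (k : ℕ) : ExistsEPQ (2 * (4 * k + 7) + 1) := by
  refine epq_of_int (by omega) (d3 k) (fun i => ((d3 k i).natAbs : ℤ)) (t3 k) ?_ ?_ ?_ ?_ ?_ ?_ ?_
  · intro i hi
    have h1 := d3_spec k i
    omega
  · intro i hi j hj hij
    have h1 := d3_spec k i
    have h2 := d3_spec k j
    generalize d3 k i = x at *
    generalize d3 k j = y at *
    omega
  · intro i hi
    omega
  · intro i hi
    have h1 := t3_spec k i
    omega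
  · intro i hi j hj hij
    have h1 := t3_spec k i
    have h2 := t3_spec k j
    generalize t3 k i = x at *
    generalize t3 k j = y at *
    omega
  · intro i hi
    have h1 := d3_spec k i
    have h3 := t3_spec k i
    by_cases hc : i + 1 < 4 * k + 7
    · have h2 := d3_spec k (i + 1)
      rw [show nx (4 * k + 7) i = i + 1 from if_pos hc]
      generalize d3 k i = x at *
      generalize d3 k (i + 1) = y at *
      generalize t3 k i = z at *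
      omega
    · have h2 := d3_spec k 0
      rw [show nx (4 * k + 7) i = 0 from if_neg hc]
      generalize d3 k i = x at *
      generalize d3 k 0 = y at *
      generalize t3 k i = z at *
      omega
  · rw [d3_sum]
    refine ⟨-2, -1, ?_⟩
    push_cast
    ring

/-! ### family 6: h = 6 * k + 4 -/

/-- difference sequence for `h = 6 * k + 4` -/
def d6 (k i : ℕ) : ℤ :=
  if i < 4 * k + 2 then (0 * (k : ℤ) + 1) + ((i : ℤ) - (0 * (k : ℤ) + 0))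
  else if i < 5 * k + 3 then (-6 * (k : ℤ) - 4) + ((i : ℤ) - (4 * (k : ℤ) + 2))
  else (5 * (k : ℤ) + 3) - ((i : ℤ) - (5 * (k : ℤ) + 3))

lemma d6_spec (k i : ℕ) : (i < 4 * k + 2 ∧ d6 k i = (0 * (k : ℤ) + 1) + ((i : ℤ) - (0 * (k : ℤ) + 0))) ∨
    (4 * k + 2 ≤ i ∧ i < 5 * k + 3 ∧ d6 k i = (-6 * (k : ℤ) - 4) + ((i : ℤ) - (4 * (k : ℤ) + 2))) ∨
    (5 * k + 3 ≤ i ∧ d6 k i = (5 * (k : ℤ) + 3) - ((i : ℤ) - (5 * (k : ℤ) + 3))) := by
  unfold d6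
  split_ifs <;> omega

/-- absolute neighbour sums for `h = 6 * k + 4` -/
def t6 (k i : ℕ) : ℤ :=
  if i < 3 * k + 1 then 2 * (i : ℤ) + (0 * (k : ℤ) + 3)
  else if i < 4 * k + 1 then -2 * (i : ℤ) + (12 * (k : ℤ) + 6)
  else if i < 4 * k + 2 then (2 * (k : ℤ) + 2)
  else if i < 5 * k + 2 then 2 * (i : ℤ) + (-8 * (k : ℤ) - 2)
  else if i < 5 * k + 3 then (0 * (k : ℤ) + 1)
  else if i < 6 * k + 3 then 2 * (i : ℤ) + (-8 * (k : ℤ) - 2)
  else (4 * (k : ℤ) + 4)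

lemma t6_spec (k i : ℕ) : (i < 3 * k + 1 ∧ t6 k i = 2 * (i : ℤ) + (0 * (k : ℤ) + 3)) ∨
    (3 * k + 1 ≤ i ∧ i < 4 * k + 1 ∧ t6 k i = -2 * (i : ℤ) + (12 * (k : ℤ) + 6)) ∨
    (4 * k + 1 ≤ i ∧ i < 4 * k + 2 ∧ t6 k i = (2 * (k : ℤ) + 2)) ∨
    (4 * k + 2 ≤ i ∧ i < 5 * k + 2 ∧ t6 k i = 2 * (i : ℤ) + (-8 * (k : ℤ) - 2)) ∨
    (5 * k + 2 ≤ i ∧ i < 5 * k + 3 ∧ t6 k i = (0 * (k : ℤ) + 1)) ∨
    (5 * k + 3 ≤ i ∧ i < 6 * k + 3 ∧ t6 k i = 2 * (i : ℤ) + (-8 * (k : ℤ) - 2)) ∨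
    (6 * k + 3 ≤ i ∧ t6 k i = (4 * (k : ℤ) + 4)) := by
  unfold t6
  split_ifs <;> omega

lemma d6_sum (k : ℕ) : ∑ i ∈ Finset.range (6 * k + 4), d6 k i = 7 * (k : ℤ) ^ 2 + 8 * k + 2 := by
  have hr : 6 * k + 4 = (4 * k + 2) + ((1 * k + 1) + (1 * k + 1)) := by ring
  rw [hr,
    Finset.sum_range_add (fun x => d6 k x) (4 * k + 2),
    Finset.sum_range_add (fun x => d6 k (4 * k + 2 + x)) (1 * k + 1)]
  have e0 := sum_lin (4 * k + 2) ((0 * (k : ℤ) + 1)) (1) (fun x => d6 k x) (by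
    intro i hi
    have hs := d6_spec k i
    omega)
  have e1 := sum_lin (1 * k + 1) ((-6 * (k : ℤ) - 4)) (1) (fun x => d6 k (4 * k + 2 + x)) (by
    intro i hi
    have hs := d6_spec k (4 * k + 2 + i)
    omega)
  have e2 := sum_lin (1 * k + 1) ((5 * (k : ℤ) + 3)) (-1) (fun x => d6 k (4 * k + 2 + (1 * k + 1 + x))) (by
    intro i hi
    have hs := d6_spec k (4 * k + 2 + (1 * k + 1 + i))
    omega)
  simp only [Nat.cast_add, Nat.cast_mul, Nat.cast_one, Nat.cast_ofNat, Nat.cast_zero] at *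
  linarith

theorem epq6 (k : ℕ) : ExistsEPQ (2 * (6 * k + 4) + 1) := by
  refine epq_of_int (by omega) (d6 k) (fun i => ((d6 k i).natAbs : ℤ)) (t6 k) ?_ ?_ ?_ ?_ ?_ ?_ ?_
  · intro i hi
    have h1 := d6_spec k i
    omega
  · intro i hi j hj hij
    have h1 := d6_spec k i
    have h2 := d6_spec k j
    generalize d6 k i = x at *
    generalize d6 k j = y at *
    omega
  · intro i hi
    omega
  · intro i hi
    have h1 := t6_spec k i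
    omega
  · intro i hi j hj hij
    have h1 := t6_spec k i
    have h2 := t6_spec k j
    generalize t6 k i = x at *
    generalize t6 k j = y at *
    omega
  · intro i hi
    have h1 := d6_spec k i
    have h3 := t6_spec k i
    by_cases hc : i + 1 < 6 * k + 4
    · have h2 := d6_spec k (i + 1)
      rw [show nx (6 * k + 4) i = i + 1 from if_pos hc]
      generalize d6 k i = x at *
      generalize d6 k (i + 1) = y at *
      generalize t6 k i = z at *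
      omega
    · have h2 := d6_spec k 0
      rw [show nx (6 * k + 4) i = 0 from if_neg hc]
      generalize d6 k i = x at *
      generalize d6 k 0 = y at *
      generalize t6 k i = z at *
      omega
  · rw [d6_sum]
    have h3 : ¬ (3 : ℤ) ∣ 7 * (k : ℤ) ^ 2 + 8 * k + 2 := by
      intro hd
      have h5 : (k : ℤ) % 3 = 0 ∨ (k : ℤ) % 3 = 1 ∨ (k : ℤ) % 3 = 2 := by omega
      obtain ⟨c, hc⟩ := hd
      obtain ⟨q, hq⟩ : ∃ q : ℤ, q = (k : ℤ) / 3 := ⟨_, rfl⟩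
      rcases h5 with h5 | h5 | h5
      · have : (k : ℤ) = 3 * q := by omega
        rw [this] at hc; ring_nf at hc; omega
      · have : (k : ℤ) = 3 * q + 1 := by omega
        rw [this] at hc; ring_nf at hc; omega
      · have : (k : ℤ) = 3 * q + 2 := by omega
        rw [this] at hc; ring_nf at hc; omega
    have h4 : IsCoprime ((3 : ℤ) ^ 2) (7 * (k : ℤ) ^ 2 + 8 * k + 2) := by
      apply IsCoprime.pow_left
      rw [Int.prime_three.coprime_iff_not_dvd]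
      exact h3
    obtain ⟨u, v, huv⟩ := h4
    refine ⟨v - 144 * u, u * (7 * (12 * k + 9) - 30), ?_⟩
    rw [← huv]
    push_cast
    ring

end H401PQ
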