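import Pool.Agent.H401R3.PQ.Defs

/-! Half-set criterion for integer sequences and evaluation of sums of linear runs. -/

namespace H401PQ

lemma cast_ne_neg {h : ℕ} {x : ℤ} (h1 : 1 ≤ x) (h2 : x ≤ h) :
    (x : ZMod (2 * h + 1)) ≠ -(x : ZMod (2 * h + 1)) := by
  intro h0
  have h3 : ((2 * x : ℤ) : ZMod (2 * h + 1)) = 0 := by
    push_cast
    linear_combination h0
  rw [ZMod.intCast_zmod_eq_zero_iff_dvd] at h3
  obtain ⟨c, hc⟩ := h3
  push_cast at hc
  rcases lt_trichotomy c 0 with hc0 | hc0 | hc0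
  · nlinarith
  · subst hc0; omega
  · nlinarith

lemma eq_of_cast {h : ℕ} {x y : ℤ} (hx1 : 1 ≤ x) (hx2 : x ≤ h) (hy1 : 1 ≤ y) (hy2 : y ≤ h)
    (H : (x : ZMod (2 * h + 1)) = y ∨ (x : ZMod (2 * h + 1)) = -(y : ZMod (2 * h + 1))) :
    x = y := by
  rcases H with H | H
  · have h3 : ((x - y : ℤ) : ZMod (2 * h + 1)) = 0 := by push_cast; rw [H]; ring
    rw [ZMod.intCast_zmod_eq_zero_iff_dvd] at h3
    obtain ⟨c, hc⟩ := h3
    push_cast at hc
    rcases lt_trichotomy c 0 with hc0 | hc0 | hc0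
    · nlinarith
    · subst hc0; omega
    · nlinarith
  · exfalso
    have h3 : ((x + y : ℤ) : ZMod (2 * h + 1)) = 0 := by push_cast; rw [H]; ring
    rw [ZMod.intCast_zmod_eq_zero_iff_dvd] at h3
    obtain ⟨c, hc⟩ := h3
    push_cast at hc
    rcases lt_trichotomy c 0 with hc0 | hc0 | hc0
    · nlinarith
    · subst hc0; omega
    · nlinarith

theorem HS_of_abs {h : ℕ} [NeZero h] (F : ZMod h → ZMod (2 * h + 1)) (t : ℕ → ℤ)
    (ht : ∀ i < h, 1 ≤ t i ∧ t i ≤ h) (hinj : ∀ i < h, ∀ j < h, t i = t j → i = j)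
    (hF : ∀ i : ZMod h, F i = (t i.val : ZMod (2 * h + 1)) ∨ F i = -(t i.val : ZMod (2 * h + 1))) :
    HS F := by
  have hlt : ∀ i : ZMod h, i.val < h := fun i => ZMod.val_lt i
  have hsurj : ∀ w : ℤ, 1 ≤ w → w ≤ h → ∃ i < h, t i = w := by
    intro w hw1 hw2
    let g : Fin h → Fin h := fun i => ⟨(t i.val - 1).toNat, by
      have := ht i.val i.isLt
      omega⟩
    have hg : Function.Injective g := by
      intro i j hij
      have h1 := ht i.val i.isLt
      have h2 := ht j.val j.isLt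
      have h3 : (t i.val - 1).toNat = (t j.val - 1).toNat := by
        simpa [g] using congrArg Fin.val hij
      exact Fin.ext (hinj _ i.isLt _ j.isLt (by omega))
    have hg' := Finite.injective_iff_surjective.mp hg
    obtain ⟨i, hi⟩ := hg' ⟨(w - 1).toNat, by omega⟩
    have h1 := ht i.val i.isLt
    have h3 : (t i.val - 1).toNat = (w - 1).toNat := by
      simpa [g] using congrArg Fin.val hi
    exact ⟨i.val, i.isLt, by omega⟩
  have hpm : ∀ (i : ZMod h) (x : ZMod (2 * h + 1)), (x = F i ∨ x = - F i) →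
      (x = (t i.val : ZMod (2 * h + 1)) ∨ x = -(t i.val : ZMod (2 * h + 1))) := by
    intro i x hx
    rcases hx with hx | hx <;> rcases hF i with hf | hf
    · left; rw [hx, hf]
    · right; rw [hx, hf]
    · right; rw [hx, hf]
    · left; rw [hx, hf, neg_neg]
  have hpm' : ∀ (i : ZMod h) (x : ZMod (2 * h + 1)),
      (x = (t i.val : ZMod (2 * h + 1)) ∨ x = -(t i.val : ZMod (2 * h + 1))) →
      (x = F i ∨ x = - F i) := by
    intro i x hx
    rcases hx with hx | hx <;> rcases hF i with hf | hf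
    · left; rw [hx, hf]
    · right; rw [hx, hf, neg_neg]
    · right; rw [hx, hf]
    · left; rw [hx, hf]
  constructor
  · intro i h0
    have h1 := ht i.val (hlt i)
    have h2 := cast_ne_neg (h := h) h1.1 h1.2
    rcases hF i with hf | hf
    · rw [hf] at h0; exact h2 h0
    · rw [hf, neg_neg] at h0; exact h2 h0.symm
  · intro x hx
    have hv : x.val < 2 * h + 1 := ZMod.val_lt x
    have hv0 : x.val ≠ 0 := by
      intro h0
      exact hx ((ZMod.val_eq_zero x).mp h0)
    have hxv : ((x.val : ℤ) : ZMod (2 * h + 1)) = x := by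
      rw [Int.cast_natCast, ZMod.natCast_zmod_val]
    have hex : ∃ i : ZMod h, x = F i ∨ x = - F i := by
      by_cases hc : x.val ≤ h
      · obtain ⟨i, hi, hti⟩ := hsurj x.val (by omega) (by exact_mod_cast hc)
        refine ⟨(i : ZMod h), hpm' _ _ (Or.inl ?_)⟩
        rw [ZMod.val_cast_of_lt hi, hti, hxv]
      · obtain ⟨i, hi, hti⟩ := hsurj (2 * h + 1 - x.val) (by omega) (by omega)
        refine ⟨(i : ZMod h), hpm' _ _ (Or.inr ?_)⟩
        rw [ZMod.val_cast_of_lt hi, hti]
        have : ((2 * (h : ℤ) + 1 - (x.val : ℤ) : ℤ) : ZMod (2 * h + 1))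
            = ((2 * h + 1 : ℕ) : ZMod (2 * h + 1)) - ((x.val : ℤ) : ZMod (2 * h + 1)) := by
          push_cast; ring
        rw [this, ZMod.natCast_self, hxv]
        ring
    obtain ⟨i, hi⟩ := hex
    refine ⟨i, hi, ?_⟩
    intro j hj
    have h1 := hpm i x hi
    have h2 := hpm j x hj
    have hi' := ht i.val (hlt i)
    have hj' := ht j.val (hlt j)
    have h3 : t j.val = t i.val := by
      apply eq_of_cast (h := h) hj'.1 hj'.2 hi'.1 hi'.2
      rcases h1 with h1 | h1 <;> rcases h2 with h2 | h2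
      · left; rw [← h1, ← h2]
      · right; rw [← h1, h2, neg_neg]
      · right; rw [← h1, ← h2]
      · left; rw [h1] at h2; exact (neg_injective h2).symm
    exact ZMod.val_injective h (hinj _ (hlt j) _ (hlt i) h3)

/-- cyclic successor on `0, ..., h-1` -/
def nx (h i : ℕ) : ℕ := if i + 1 < h then i + 1 else 0

lemma val_succ {h : ℕ} (hh : 2 ≤ h) (i : ZMod h) : (i + 1).val = nx h i.val := by
  have : NeZero h := ⟨by omega⟩
  have : Fact (1 < h) := ⟨by omega⟩
  have hi := ZMod.val_lt i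
  rw [ZMod.val_add, ZMod.val_one]
  unfold nx
  split_ifs with h1
  · exact Nat.mod_eq_of_lt h1
  · have : i.val + 1 = h := by omega
    rw [this, Nat.mod_self]

/-- The integer form of the difference method. -/
theorem epq_of_int {h : ℕ} (hh : 2 ≤ h) (d a t : ℕ → ℤ)
    (ha : ∀ i < h, 1 ≤ a i ∧ a i ≤ h) (hainj : ∀ i < h, ∀ j < h, a i = a j → i = j)
    (hd : ∀ i < h, d i = a i ∨ d i = - a i)
    (ht : ∀ i < h, 1 ≤ t i ∧ t i ≤ h) (htinj : ∀ i < h, ∀ j < h, t i = t j → i = j)
    (hs : ∀ i < h, d i + d (nx h i) = t i ∨ d i + d (nx h i) = - t i ∨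
      d i + d (nx h i) = t i - (2 * h + 1) ∨ d i + d (nx h i) = (2 * h + 1) - t i)
    (hcop : IsCoprime (∑ i ∈ Finset.range h, d i) ((2 * h + 1 : ℕ) : ℤ)) :
    ExistsEPQ (2 * h + 1) := by
  have hz : NeZero h := ⟨by omega⟩
  have hn0 : ((2 * (h : ℤ) + 1 : ℤ) : ZMod (2 * h + 1)) = 0 := by
    have : ((2 * h + 1 : ℕ) : ZMod (2 * h + 1)) = 0 := ZMod.natCast_self _
    push_cast at this ⊢
    exact this
  refine exists_of_seq (fun i : ZMod h => (d i.val : ZMod (2 * h + 1))) ?_ ?_ ?_
  · apply HS_of_abs _ a ha hainj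
    intro i
    rcases hd i.val (ZMod.val_lt i) with h1 | h1
    · left; simp only [h1]
    · right; simp only [h1]; push_cast; rfl
  · apply HS_of_abs _ t ht htinj
    intro i
    have h2 : (d i.val : ZMod (2 * h + 1)) + (d (i + 1).val : ZMod (2 * h + 1))
        = ((d i.val + d (nx h i.val) : ℤ) : ZMod (2 * h + 1)) := by
      simp only [val_succ hh]
      push_cast
      rfl
    rw [h2]
    rcases hs i.val (ZMod.val_lt i) with h1 | h1 | h1 | h1
    · left; rw [h1]
    · right; rw [h1]; push_cast; rfl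
    · left
      rw [h1, Int.cast_sub, hn0, sub_zero]
    · right
      rw [h1, Int.cast_sub, hn0, zero_sub]
  · have h3 : ∑ i : ZMod h, (d i.val : ZMod (2 * h + 1))
        = ((∑ i ∈ Finset.range h, d i : ℤ) : ZMod (2 * h + 1)) := by
      rw [← sum_range_zmod (fun i : ZMod h => (d i.val : ZMod (2 * h + 1)))]
      push_cast
      apply Finset.sum_congr rfl
      intro j hj
      rw [ZMod.val_cast_of_lt (Finset.mem_range.mp hj)]
    rw [h3]
    obtain ⟨u, v, huv⟩ := hcop
    have h4 : (u : ZMod (2 * h + 1)) * ((∑ i ∈ Finset.range h, d i : ℤ) : ZMod (2 * h + 1)) = 1 := by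
      have := congrArg (fun z : ℤ => (z : ZMod (2 * h + 1))) huv
      simp only [Int.cast_add, Int.cast_mul, Int.cast_natCast, Int.cast_one] at this
      rw [ZMod.natCast_self, mul_zero, add_zero] at this
      exact this
    exact IsUnit.of_mul_eq_one _ ((mul_comm _ _).trans h4)

lemma sum_lin (m : ℕ) (c e : ℤ) (g : ℕ → ℤ) (hg : ∀ i < m, g i = c + e * i) :
    2 * ∑ i ∈ Finset.range m, g i = m * (2 * c + e * (m - 1)) := by
  induction m with
  | zero => simp
  | succ m ih =>
    rw [Finset.sum_range_succ, mul_add, ih (fun i hi => hg i (by omega)), hg m (by omega)]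
    push_cast
    ring

end H401PQ
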