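import Pool.Agent.H401R3.PQ.Half

/-! Small orders: 3, 5, 7, 9, 11 and even orders. -/

namespace H401PQ

/-- the three fixed-point-free involutions of `{1,2,3,4}` -/
def tg : Fin 3 → Fin 5 → Fin 5 := ![![0, 2, 1, 4, 3], ![0, 3, 4, 1, 2], ![0, 4, 3, 2, 1]]

/-- the P-groupoid of order 5 with the matching `tg (c b)` at `b` -/
def tb (c : Fin 5 → Fin 3) (a b : Fin 5) : Fin 5 := b + tg (c b) (a - b)

lemma dec5 : ∀ c0 c1 c2 c3 c4 : Fin 3,
    (∀ a b b' : Fin 5, tb ![c0, c1, c2, c3, c4] a b = tb ![c0, c1, c2, c3, c4] a b' → b = b') →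
    ∀ a b : Fin 5, a ≠ b →
      let op := tb ![c0, c1, c2, c3, c4]
      let a2 := op a b
      let a3 := op b a2
      let a4 := op a2 a3
      op a3 a4 = a ∧ op a4 (op a3 a4) = b := by
  decide +kernel

lemma inv5 : ∀ x1 x2 x3 x4 : Fin 5, x1 ≠ 1 → x2 ≠ 2 → x3 ≠ 3 → x4 ≠ 4 →
    (∀ j : Fin 5, ![0, x1, x2, x3, x4] (![0, x1, x2, x3, x4] j) = j) →
    ∃ c : Fin 3, ∀ j : Fin 5, ![0, x1, x2, x3, x4] j = tg c j := by
  decide +kernel

lemma inv5' (g : Fin 5 → Fin 5) (h0 : g 0 = 0) (h1 : ∀ j, j ≠ 0 → g j ≠ j)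
    (h2 : ∀ j, g (g j) = j) : ∃ c : Fin 3, ∀ j : Fin 5, g j = tg c j := by
  have hg : g = ![0, g 1, g 2, g 3, g 4] := by
    funext j
    fin_cases j
    · exact h0
    · rfl
    · rfl
    · rfl
    · rfl
  have := inv5 (g 1) (g 2) (g 3) (g 4) (h1 1 (by decide)) (h1 2 (by decide)) (h1 3 (by decide))
    (h1 4 (by decide)) (by rw [← hg]; exact h2)
  rw [← hg] at this
  exact this

lemma table5 (op : Fin 5 → Fin 5 → Fin 5) (hP : IsPGroupoid op) :
    ∃ c : Fin 5 → Fin 3, op = tb c := by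
  have key : ∀ b : Fin 5, ∃ c : Fin 3, ∀ j : Fin 5, op (b + j) b - b = tg c j := by
    intro b
    apply inv5' (fun j => op (b + j) b - b)
    · simp [hP.idem]
    · intro j hj h0
      have h1 : op (b + j) b = b + j := sub_eq_iff_eq_add'.mp h0
      refine hP.ne_left (b + j) b ?_ h1
      intro h2
      apply hj
      have : b + j = b + 0 := by rw [h2, add_zero]
      exact add_left_cancel this
    · intro j
      have h1 : b + (op (b + j) b - b) = op (b + j) b := add_sub_cancel _ _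
      rw [h1]
      have h2 : op (op (b + j) b) b = b + j := (hP.symm _ _ _).mp rfl
      rw [h2]; exact add_sub_cancel_left _ _
  choose c hc using key
  refine ⟨c, ?_⟩
  funext a b
  have h1 := hc b (a - b)
  have h2 : b + (a - b) = a := add_sub_cancel _ _
  rw [h2] at h1
  unfold tb
  rw [← h1]; exact (add_sub_cancel _ _).symm

lemma no5_op (op : Fin 5 → Fin 5 → Fin 5) (hP : IsPGroupoid op) (hQ : IsQuasigroup op)
    (hE : IsEulerianOfLength 10 op) : False := by
  obtain ⟨c, hc⟩ := table5 op hP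
  have hc' : c = ![c 0, c 1, c 2, c 3, c 4] := by
    funext j; fin_cases j <;> rfl
  have hrow : ∀ a b b' : Fin 5, tb c a b = tb c a b' → b = b' := by
    intro a b b' h
    rw [← hc] at h
    exact (hQ a (op a b')).1.unique h rfl
  rw [hc'] at hrow
  have hd := dec5 (c 0) (c 1) (c 2) (c 3) (c 4) hrow
  rw [← hc', ← hc] at hd
  obtain ⟨v, hv, he⟩ := hE
  -- the walk has period 5
  have h01 : (0 : Fin 5) ≠ 1 := by decide
  obtain ⟨i, hi, hu⟩ := he 0 1 h01
  have hne : v i ≠ v (i + 1) := by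
    rcases hi with ⟨h1, h2⟩ | ⟨h1, h2⟩ <;> rw [h1, h2] <;> decide
  have h2 := hv i
  have h3 := hv (i + 1)
  have h4 := hv (i + 2)
  have h5 := hv (i + 3)
  have h6 := hv (i + 4)
  have e1 : i + 1 + 1 = i + 2 := by ring
  have e2 : i + 1 + 2 = i + 3 := by ring
  have e3 : i + 2 + 1 = i + 3 := by ring
  have e4 : i + 2 + 2 = i + 4 := by ring
  have e5 : i + 3 + 1 = i + 4 := by ring
  have e6 : i + 3 + 2 = i + 5 := by ring
  have e7 : i + 4 + 1 = i + 5 := by ring
  have e8 : i + 4 + 2 = i + 5 + 1 := by ring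
  rw [e1, e2] at h3
  rw [e3, e4] at h4
  rw [e5, e6] at h5
  rw [e7, e8] at h6
  have hd' := hd (v i) (v (i + 1)) hne
  simp only at hd'
  rw [h2, h3, h4, h5, h6] at hd'
  have h7 : i + 5 = i := by
    apply hu
    rw [hd'.1, hd'.2]
    exact hi
  have h8 : (5 : ZMod 10) = 0 := by
    have : i + 5 = i + 0 := by rw [h7, add_zero]
    exact add_left_cancel this
  exact absurd h8 (by decide)

lemma no5 : ¬ ExistsEPQ 5 := by
  rintro ⟨V, _, op, hcard, hP, hQ, hE⟩
  unfold IsEulerian at hE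
  rw [hcard] at hE
  norm_num at hE
  have e : V ≃ Fin 5 := Fintype.equivFinOfCardEq hcard
  refine no5_op (fun x y => e (op (e.symm x) (e.symm y))) ?_ ?_ ?_
  · refine ⟨?_, ?_, ?_, ?_⟩
    · intro a; simp [hP.idem]
    · intro a b hab h
      exact hP.ne_left (e.symm a) (e.symm b) (fun h' => hab (e.symm.injective h'))
        (e.injective (by rw [h]; simp))
    · intro a b hab h
      exact hP.ne_right (e.symm a) (e.symm b) (fun h' => hab (e.symm.injective h'))
        (e.injective (by rw [h]; simp))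
    · intro a b c
      constructor
      · intro h
        have : op (e.symm a) (e.symm b) = e.symm c := by rw [← h]; simp
        rw [(hP.symm _ _ _).mp this]; simp
      · intro h
        have : op (e.symm c) (e.symm b) = e.symm a := by rw [← h]; simp
        rw [(hP.symm _ _ _).mp this]; simp
  · intro a b
    obtain ⟨⟨x, hx, hxu⟩, ⟨y, hy, hyu⟩⟩ := hQ (e.symm a) (e.symm b)
    constructor
    · refine ⟨e x, by simp only [Equiv.symm_apply_apply]; rw [hx]; simp, ?_⟩
      intro z hz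
      have : op (e.symm a) (e.symm z) = e.symm b := by rw [← hz]; simp
      have := hxu _ this
      rw [← this]; simp
    · refine ⟨e y, by simp only [Equiv.symm_apply_apply]; rw [hy]; simp, ?_⟩
      intro z hz
      have : op (e.symm z) (e.symm a) = e.symm b := by rw [← hz]; simp
      have := hyu _ this
      rw [← this]; simp
  · obtain ⟨v, hv, he⟩ := hE
    refine ⟨fun i => e (v i), ?_, ?_⟩
    · intro i; simp [hv]
    · intro a b hab
      obtain ⟨i, hi, hu⟩ := he (e.symm a) (e.symm b) (fun h' => hab (e.symm.injective h'))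
      refine ⟨i, ?_, ?_⟩
      · rcases hi with ⟨h1, h2⟩ | ⟨h1, h2⟩
        · left; simp [h1, h2]
        · right; simp [h1, h2]
      · intro j hj
        apply hu
        rcases hj with ⟨h1, h2⟩ | ⟨h1, h2⟩
        · left; rw [← h1, ← h2]; simp
        · right; rw [← h1, ← h2]; simp

lemma no_even {n : ℕ} (hn : 1 ≤ n) (h : ExistsEPQ n) : Odd n := by
  classical
  obtain ⟨V, _, op, hcard, hP, -, -⟩ := h
  have hpos : 0 < Fintype.card V := by omega
  obtain ⟨b⟩ := Fintype.card_pos_iff.mp hpos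
  have h1 : ∑ a ∈ (Finset.univ.erase b : Finset V), (1 : ZMod 2) = 0 := by
    apply Finset.sum_involution (fun a _ => op a b)
    · intro a _; decide
    · intro a ha _
      exact hP.ne_left a b (Finset.ne_of_mem_erase ha)
    · intro a ha
      apply Finset.mem_erase.mpr
      exact ⟨hP.ne_right a b (Finset.ne_of_mem_erase ha), Finset.mem_univ _⟩
    · intro a ha
      exact (hP.symm _ _ _).mp rfl
  rw [Finset.sum_const, Finset.card_erase_of_mem (Finset.mem_univ b), Finset.card_univ, hcard,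
    nsmul_eq_mul, mul_one, ZMod.natCast_eq_zero_iff] at h1
  obtain ⟨c, hc⟩ := h1
  exact ⟨c, by omega⟩

/-- table of an Eulerian P-quasigroup of order 3 -/
def op3 : Fin 3 → Fin 3 → Fin 3 := ![![0, 2, 1], ![2, 1, 0], ![1, 0, 2]]

/-- the closed walk of `op3` -/
def v3 : Fin 3 → Fin 3 := ![0, 1, 2]

lemma v3_op : ∀ i : Fin 3, op3 (v3 i) (v3 (i + 1)) = v3 (i + 2) := by decide

lemma v3_edges : ∀ a b : Fin 3, a ≠ b →
    ∃! i : Fin 3, (v3 i = a ∧ v3 (i + 1) = b) ∨ (v3 i = b ∧ v3 (i + 1) = a) := by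
  unfold ExistsUnique
  decide

lemma epq_n3 : ExistsEPQ 3 := by
  refine ⟨Fin 3, inferInstance, op3, rfl, ⟨by decide, by decide, by decide, by decide⟩,
    by unfold IsQuasigroup ExistsUnique; decide, ?_⟩
  unfold IsEulerian
  rw [Fintype.card_fin]
  norm_num
  exact ⟨v3, v3_op, v3_edges⟩

/-- table of an Eulerian P-quasigroup of order 7 -/
def op7 : Fin 7 → Fin 7 → Fin 7 :=
  ![![0, 2, 3, 5, 6, 1, 4], ![2, 1, 6, 4, 5, 0, 3], ![1, 0, 2, 6, 3, 4, 5], ![4, 5, 0, 3, 2, 6, 1],
    ![3, 6, 5, 1, 4, 2, 0], ![6, 3, 4, 0, 1, 5, 2], ![5, 4, 1, 2, 0, 3, 6]]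

/-- the closed walk of `op7` -/
def v7 : Fin 21 → Fin 7 :=
  ![0, 1, 2, 6, 5, 3, 0, 4, 6, 0, 5, 1, 3, 4, 2, 5, 4, 1, 6, 3, 2]

lemma v7_op : ∀ i : Fin 21, op7 (v7 i) (v7 (i + 1)) = v7 (i + 2) := by decide +kernel

lemma v7_edges : ∀ a b : Fin 7, a ≠ b →
    ∃! i : Fin 21, (v7 i = a ∧ v7 (i + 1) = b) ∨ (v7 i = b ∧ v7 (i + 1) = a) := by
  unfold ExistsUnique
  decide +kernel

lemma epq_n7 : ExistsEPQ 7 := by
  refine ⟨Fin 7, inferInstance, op7, rfl,
    ⟨by decide +kernel, by decide +kernel, by decide +kernel, by decide +kernel⟩,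
    by unfold IsQuasigroup ExistsUnique; decide +kernel, ?_⟩
  unfold IsEulerian
  rw [Fintype.card_fin]
  norm_num
  exact ⟨v7, v7_op, v7_edges⟩

/-- difference sequence for order 9 -/
def d9 : ℕ → ℤ := fun i => if i = 0 then 1 else if i = 1 then -2 else if i = 2 then -3 else -4

/-- neighbour sums for order 9 -/
def t9 : ℕ → ℤ := fun i => if i = 0 then 1 else if i = 1 then 4 else if i = 2 then 2 else 3

lemma epq_n9 : ExistsEPQ 9 := by
  have : 9 = 2 * 4 + 1 := by norm_num
  rw [this]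
  refine epq_of_int (by norm_num) d9 (fun i => ((d9 i).natAbs : ℤ)) t9 ?_ ?_ ?_ ?_ ?_ ?_ ?_
  · decide
  · decide
  · intro i _; omega
  · decide
  · decide
  · decide
  · have : ∑ i ∈ Finset.range 4, d9 i = -8 := by decide
    rw [this]
    exact ⟨1, 1, by norm_num⟩

/-- difference sequence for order 11 -/
def d11 : ℕ → ℤ := fun i => if i = 0 then 1 else if i = 1 then 2 else if i = 2 then 3 else
  if i = 3 then -4 else -5

/-- neighbour sums for order 11 -/
def t11 : ℕ → ℤ := fun i => if i = 0 then 3 else if i = 1 then 5 else if i = 2 then 1 else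
  if i = 3 then 2 else 4

lemma epq_n11 : ExistsEPQ 11 := by
  have : 11 = 2 * 5 + 1 := by norm_num
  rw [this]
  refine epq_of_int (by norm_num) d11 (fun i => ((d11 i).natAbs : ℤ)) t11 ?_ ?_ ?_ ?_ ?_ ?_ ?_
  · decide
  · decide
  · intro i _; omega
  · decide
  · decide
  · decide
  · have : ∑ i ∈ Finset.range 5, d11 i = -3 := by decide
    rw [this]
    exact ⟨-4, -1, by norm_num⟩

end H401PQ
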