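import Pool.Agent.H401R3.PQ.Fam
import Pool.Agent.H401R3.PQ.Small

/-!
MP_42ae20_co (Kotzig): an Eulerian P-quasigroup of order `n ≥ 2` exists if and only if `n` is odd
and `n ≠ 5`.

For `n = 2h+1` with `h ≥ 4` the P-quasigroup is a translation invariant one on `ZMod n`, given by a
cyclic sequence of differences `d_0, ..., d_{h-1}` such that `{± d_i}` and `{± (d_i + d_{i+1})}` are
both the set of all nonzero residues and `∑ d_i` is coprime to `n`. (helper401)
-/

namespace Pool.Agent.H401R3.PQ.Main401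

open H401PQ

/-- An Eulerian P-quasigroup of order `n ≥ 2` exists exactly when `n` is odd and `n ≠ 5`. -/
theorem result (n : ℕ) (hn : 2 ≤ n) :
    (∃ (V : Type) (_ : Fintype V) (op : V → V → V),
      Fintype.card V = n ∧ IsPGroupoid op ∧ IsQuasigroup op ∧ IsEulerian op) ↔
      (Odd n ∧ n ≠ 5) := by
  constructor
  · intro h
    refine ⟨no_even (by omega) h, ?_⟩
    rintro rfl
    exact no5 h
  · rintro ⟨⟨h, rfl⟩, h5⟩
    change ExistsEPQ (2 * h + 1)
    by_cases h1 : h = 1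
    · subst h1; exact epq_n3
    by_cases h3 : h = 3
    · subst h3; exact epq_n7
    by_cases h4 : h = 4
    · subst h4; exact epq_n9
    by_cases h5' : h = 5
    · subst h5'; exact epq_n11
    have h6 : 6 ≤ h := by omega
    have hm : h % 4 = 0 ∨ h % 4 = 1 ∨ h % 4 = 2 ∨ h % 4 = 3 := by omega
    rcases hm with hm | hm | hm | hm
    · obtain ⟨k, rfl⟩ : ∃ k, h = 4 * k + 8 := ⟨(h - 8) / 4, by omega⟩
      exact epq0 k
    · obtain ⟨k, rfl⟩ : ∃ k, h = 4 * k + 9 := ⟨(h - 9) / 4, by omega⟩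
      exact epq1 k
    · by_cases hd : 3 ∣ 2 * h + 1
      · obtain ⟨k, rfl⟩ : ∃ k, h = 6 * k + 4 := ⟨(h - 4) / 6, by omega⟩
        exact epq6 k
      · obtain ⟨k, rfl⟩ : ∃ k, h = 4 * k + 6 := ⟨(h - 6) / 4, by omega⟩
        exact epq2 k hd
    · obtain ⟨k, rfl⟩ : ∃ k, h = 4 * k + 7 := ⟨(h - 7) / 4, by omega⟩
      exact epq3 k

end Pool.Agent.H401R3.PQ.Main401
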